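import Pool.Agent.Helper3.LF.Form

/-! BOX POLYNOMIALS (kill of case B): `z` is a polynomial of degree `D` in the box coordinates of a window; size on the
cell of the point. -/

set_option autoImplicit false

namespace Pool.Agent.Helper51.KL

open Finset MvPolynomial Pool.Agent.Helper3.LF

noncomputable section

/-! ### monomials -/

theorem pow_diff {x y M δ : ℝ} (hM : 1 ≤ M) (hx : |x| ≤ M) (hy : |y| ≤ M) (hd : |x - y| ≤ δ) (n : ℕ) :
    |x ^ n - y ^ n| ≤ n * M ^ n * δ := by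
  have hδ : 0 ≤ δ := (abs_nonneg _).trans hd
  induction n with
  | zero => simp
  | succ n ih =>
    have e1 : x ^ (n + 1) - y ^ (n + 1) = x * (x ^ n - y ^ n) + (x - y) * y ^ n := by ring
    have h1 : |x * (x ^ n - y ^ n)| ≤ M * (n * M ^ n * δ) := by
      rw [abs_mul]
      exact mul_le_mul hx ih (abs_nonneg _) (by linarith)
    have h2 : |(x - y) * y ^ n| ≤ δ * M ^ (n + 1) := by
      rw [abs_mul, abs_pow]
      have h3 : |y| ^ n ≤ M ^ n := pow_le_pow_left₀ (abs_nonneg _) hy n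
      have h4 : M ^ n ≤ M ^ (n + 1) := pow_le_pow_right₀ hM (Nat.le_succ n)
      exact mul_le_mul hd (h3.trans h4) (by positivity) hδ
    rw [e1]
    refine (abs_add_le _ _).trans ((add_le_add h1 h2).trans (le_of_eq ?_))
    push_cast
    ring

theorem prod_le {x : Fin 3 → ℝ} {M : ℝ} (hM : 1 ≤ M) (hx : ∀ i, |x i| ≤ M) (e : Fin 3 → ℕ) {D : ℕ}
    (he : ∑ i, e i ≤ D) : |∏ i, x i ^ e i| ≤ M ^ D := by
  rw [Finset.abs_prod]
  have h1 : ∏ i, |x i ^ e i| ≤ ∏ i : Fin 3, M ^ e i := by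
    apply Finset.prod_le_prod
    · intro i _
      exact abs_nonneg _
    · intro i _
      rw [abs_pow]
      exact pow_le_pow_left₀ (abs_nonneg _) (hx i) _
  refine h1.trans ?_
  rw [Finset.prod_pow_eq_pow_sum]
  exact pow_le_pow_right₀ hM he

/-- differences of monomials -/
theorem mono_diff {x y : Fin 3 → ℝ} {M δ : ℝ} (hM : 1 ≤ M) (hx : ∀ i, |x i| ≤ M) (hy : ∀ i, |y i| ≤ M)
    (hd : ∀ i, |x i - y i| ≤ δ) (e : Fin 3 → ℕ) {D : ℕ} (he : ∑ i, e i ≤ D) :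
    |∏ i, x i ^ e i - ∏ i, y i ^ e i| ≤ D * M ^ D * δ := by
  have hδ : 0 ≤ δ := (abs_nonneg _).trans (hd 0)
  rw [Fin.prod_univ_three, Fin.prod_univ_three]
  rw [Fin.sum_univ_three] at he
  have p0 := pow_diff hM (hx 0) (hy 0) (hd 0) (e 0)
  have p1 := pow_diff hM (hx 1) (hy 1) (hd 1) (e 1)
  have p2 := pow_diff hM (hx 2) (hy 2) (hd 2) (e 2)
  have q : ∀ (z : Fin 3 → ℝ), (∀ i, |z i| ≤ M) → ∀ i, |z i ^ e i| ≤ M ^ e i := by
    intro z hz i
    rw [abs_pow]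
    exact pow_le_pow_left₀ (abs_nonneg _) (hz i) _
  have e1 : x 0 ^ e 0 * x 1 ^ e 1 * x 2 ^ e 2 - y 0 ^ e 0 * y 1 ^ e 1 * y 2 ^ e 2 =
      (x 0 ^ e 0 - y 0 ^ e 0) * (x 1 ^ e 1 * x 2 ^ e 2) + y 0 ^ e 0 * ((x 1 ^ e 1 - y 1 ^ e 1) * x 2 ^ e 2) +
      y 0 ^ e 0 * (y 1 ^ e 1 * (x 2 ^ e 2 - y 2 ^ e 2)) := by ring
  have hM0 : 0 ≤ M := by linarith
  have b0 : |(x 0 ^ e 0 - y 0 ^ e 0) * (x 1 ^ e 1 * x 2 ^ e 2)| ≤ (e 0 * M ^ e 0 * δ) * (M ^ e 1 * M ^ e 2) := by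
    rw [abs_mul, abs_mul]
    exact mul_le_mul p0 (mul_le_mul (q x hx 1) (q x hx 2) (abs_nonneg _) (by positivity)) (by positivity) (by positivity)
  have b1 : |y 0 ^ e 0 * ((x 1 ^ e 1 - y 1 ^ e 1) * x 2 ^ e 2)| ≤ M ^ e 0 * ((e 1 * M ^ e 1 * δ) * M ^ e 2) := by
    rw [abs_mul, abs_mul]
    exact mul_le_mul (q y hy 0) (mul_le_mul p1 (q x hx 2) (abs_nonneg _) (by positivity)) (by positivity) (by positivity)
  have b2 : |y 0 ^ e 0 * (y 1 ^ e 1 * (x 2 ^ e 2 - y 2 ^ e 2))| ≤ M ^ e 0 * (M ^ e 1 * (e 2 * M ^ e 2 * δ)) := by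
    rw [abs_mul, abs_mul]
    exact mul_le_mul (q y hy 0) (mul_le_mul (q y hy 1) p2 (abs_nonneg _) (by positivity)) (by positivity) (by positivity)
  rw [e1]
  refine (abs_add_le _ _).trans ((add_le_add ((abs_add_le _ _).trans (add_le_add b0 b1)) b2).trans ?_)
  have e2 : (e 0 * M ^ e 0 * δ) * (M ^ e 1 * M ^ e 2) + M ^ e 0 * ((e 1 * M ^ e 1 * δ) * M ^ e 2) +
      M ^ e 0 * (M ^ e 1 * (e 2 * M ^ e 2 * δ)) = ((e 0 + e 1 + e 2 : ℕ) : ℝ) * M ^ (e 0 + e 1 + e 2) * δ := by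
    push_cast
    rw [pow_add, pow_add]
    ring
  rw [e2]
  apply mul_le_mul_of_nonneg_right _ hδ
  exact mul_le_mul (by exact_mod_cast he) (pow_le_pow_right₀ hM he) (by positivity) (Nat.cast_nonneg _)

/-! ### box polynomials -/

/-- box coordinates as polynomials in `(t, y, R, z)` -/
def bg (A : Fin 3 → ℝ) (x : Fin 9 → ℝ) : Fin 3 → MvPolynomial (Fin 4) ℝ :=
  ![C (A 0) * (X 0 - C (x 0)), C (A 1) * (X 1 - C (x 1)), C (A 2) * (X 2 - (C (x 2) + C (x 3) * X 0 + C (x 4) * X 1))]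

/-- the frame of `z` -/
def bf (x : Fin 9 → ℝ) : MvPolynomial (Fin 4) ℝ := C (x 5) + C (x 6) * X 0 + C (x 7) * X 1 + C (x 8) * X 2

/-- the box polynomial: `z - frame - θ Σ γ_a g ^ a` -/
def bq {D : ℕ} (A : Fin 3 → ℝ) (x : Fin 9 → ℝ) (θ : ℝ) (γ : Mon 3 D → ℝ) : MvPolynomial (Fin 4) ℝ :=
  X 3 - bf x - C θ * ∑ a, C (γ a) * ∏ i, bg A x i ^ (a.1 i : ℕ)

/-- box coordinates at a point -/
def bgv (A : Fin 3 → ℝ) (x : Fin 9 → ℝ) (p : Fin 4 → ℝ) : Fin 3 → ℝ :=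
  ![A 0 * (p 0 - x 0), A 1 * (p 1 - x 1), A 2 * (p 2 - (x 2 + x 3 * p 0 + x 4 * p 1))]

/-- the box polynomial at a point -/
def bqv {D : ℕ} (A : Fin 3 → ℝ) (x : Fin 9 → ℝ) (θ : ℝ) (γ : Mon 3 D → ℝ) (p : Fin 4 → ℝ) : ℝ :=
  p 3 - (x 5 + x 6 * p 0 + x 7 * p 1 + x 8 * p 2) - θ * ∑ a, γ a * ∏ i, bgv A x p i ^ (a.1 i : ℕ)

theorem bg_eval (A : Fin 3 → ℝ) (x : Fin 9 → ℝ) (p : Fin 4 → ℝ) (i : Fin 3) : eval p (bg A x i) = bgv A x p i := by
  fin_cases i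
  · simp [bg, bgv]
  · simp [bg, bgv]
  · simp [bg, bgv]

theorem bq_eval {D : ℕ} (A : Fin 3 → ℝ) (x : Fin 9 → ℝ) (θ : ℝ) (γ : Mon 3 D → ℝ) (p : Fin 4 → ℝ) :
    eval p (bq A x θ γ) = bqv A x θ γ p := by
  unfold bq bqv bf
  simp only [map_sub, map_add, map_mul, eval_X, eval_C, map_sum, map_prod, map_pow, bg_eval]

theorem bg_deg (A : Fin 3 → ℝ) (x : Fin 9 → ℝ) (i : Fin 3) : (bg A x i).totalDegree ≤ 1 := by
  have hX : ∀ j : Fin 4, (X j : MvPolynomial (Fin 4) ℝ).totalDegree ≤ 1 := fun j => (totalDegree_X (R := ℝ) j).le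
  have hC : ∀ c : ℝ, (C c : MvPolynomial (Fin 4) ℝ).totalDegree ≤ 0 := fun c => (totalDegree_C c).le
  have hCm : ∀ (c : ℝ) (q : MvPolynomial (Fin 4) ℝ), q.totalDegree ≤ 1 → (C c * q).totalDegree ≤ 1 := by
    intro c q hq
    refine (totalDegree_mul _ _).trans ?_
    have := hC c
    omega
  have hadd : ∀ q q' : MvPolynomial (Fin 4) ℝ, q.totalDegree ≤ 1 → q'.totalDegree ≤ 1 → (q + q').totalDegree ≤ 1 :=
    fun q q' h h' => (totalDegree_add _ _).trans (max_le h h')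
  have hsub : ∀ q q' : MvPolynomial (Fin 4) ℝ, q.totalDegree ≤ 1 → q'.totalDegree ≤ 1 → (q - q').totalDegree ≤ 1 :=
    fun q q' h h' => (totalDegree_sub _ _).trans (max_le h h')
  have hC1 : ∀ c : ℝ, (C c : MvPolynomial (Fin 4) ℝ).totalDegree ≤ 1 := fun c => (hC c).trans (Nat.zero_le _)
  fin_cases i
  · exact hCm _ _ (hsub _ _ (hX 0) (hC1 _))
  · exact hCm _ _ (hsub _ _ (hX 1) (hC1 _))
  · exact hCm _ _ (hsub _ _ (hX 2) (hadd _ _ (hadd _ _ (hC1 _) (hCm _ _ (hX 0))) (hCm _ _ (hX 1))))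

theorem bf_deg (x : Fin 9 → ℝ) : (bf x).totalDegree ≤ 1 := by
  have hX : ∀ j : Fin 4, (X j : MvPolynomial (Fin 4) ℝ).totalDegree ≤ 1 := fun j => (totalDegree_X (R := ℝ) j).le
  have hC : ∀ c : ℝ, (C c : MvPolynomial (Fin 4) ℝ).totalDegree ≤ 0 := fun c => (totalDegree_C c).le
  have hCm : ∀ (c : ℝ) (q : MvPolynomial (Fin 4) ℝ), q.totalDegree ≤ 1 → (C c * q).totalDegree ≤ 1 := by
    intro c q hq
    refine (totalDegree_mul _ _).trans ?_
    have := hC c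
    omega
  have hadd : ∀ q q' : MvPolynomial (Fin 4) ℝ, q.totalDegree ≤ 1 → q'.totalDegree ≤ 1 → (q + q').totalDegree ≤ 1 :=
    fun q q' h h' => (totalDegree_add _ _).trans (max_le h h')
  have hC1 : ∀ c : ℝ, (C c : MvPolynomial (Fin 4) ℝ).totalDegree ≤ 1 := fun c => (hC c).trans (Nat.zero_le _)
  exact hadd _ _ (hadd _ _ (hadd _ _ (hC1 _) (hCm _ _ (hX 0))) (hCm _ _ (hX 1))) (hCm _ _ (hX 2))

theorem bq_deg {D : ℕ} (hD : 1 ≤ D) (A : Fin 3 → ℝ) (x : Fin 9 → ℝ) (θ : ℝ) (γ : Mon 3 D → ℝ) :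
    (bq A x θ γ).totalDegree ≤ D := by
  unfold bq
  refine (totalDegree_sub _ _).trans (max_le ((totalDegree_sub _ _).trans (max_le ?_ ?_)) ?_)
  · exact (totalDegree_X (R := ℝ) 3).le.trans hD
  · exact (bf_deg x).trans hD
  · refine (totalDegree_mul _ _).trans ?_
    rw [totalDegree_C, zero_add]
    refine totalDegree_finsetSum_le fun a _ => ?_
    refine (totalDegree_mul _ _).trans ?_
    rw [totalDegree_C, zero_add]
    refine (totalDegree_finsetProd _ _).trans ?_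
    refine le_trans (Finset.sum_le_sum fun i _ => ?_) a.2
    refine (totalDegree_pow _ _).trans ?_
    have := bg_deg A x i
    nlinarith

theorem bg_der (A : Fin 3 → ℝ) (x : Fin 9 → ℝ) (i : Fin 3) : pderiv 3 (bg A x i) = 0 := by
  have h0 : pderiv 3 (X 0 : MvPolynomial (Fin 4) ℝ) = 0 := pderiv_X_of_ne (by decide)
  have h1 : pderiv 3 (X 1 : MvPolynomial (Fin 4) ℝ) = 0 := pderiv_X_of_ne (by decide)
  have h2 : pderiv 3 (X 2 : MvPolynomial (Fin 4) ℝ) = 0 := pderiv_X_of_ne (by decide)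
  fin_cases i
  · show pderiv 3 (C (A 0) * (X 0 - C (x 0))) = 0
    rw [pderiv_C_mul, map_sub, h0, pderiv_C, sub_zero, mul_zero]
  · show pderiv 3 (C (A 1) * (X 1 - C (x 1))) = 0
    rw [pderiv_C_mul, map_sub, h1, pderiv_C, sub_zero, mul_zero]
  · show pderiv 3 (C (A 2) * (X 2 - (C (x 2) + C (x 3) * X 0 + C (x 4) * X 1))) = 0
    rw [pderiv_C_mul, map_sub, map_add, map_add, pderiv_C_mul, pderiv_C_mul, h0, h1, h2, pderiv_C]
    simp

theorem bq_der {D : ℕ} (A : Fin 3 → ℝ) (x : Fin 9 → ℝ) (θ : ℝ) (γ : Mon 3 D → ℝ) :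
    pderiv 3 (bq A x θ γ) = 1 := by
  have h0 : pderiv 3 (X 0 : MvPolynomial (Fin 4) ℝ) = 0 := pderiv_X_of_ne (by decide)
  have h1 : pderiv 3 (X 1 : MvPolynomial (Fin 4) ℝ) = 0 := pderiv_X_of_ne (by decide)
  have h2 : pderiv 3 (X 2 : MvPolynomial (Fin 4) ℝ) = 0 := pderiv_X_of_ne (by decide)
  have h3 : pderiv 3 (X 3 : MvPolynomial (Fin 4) ℝ) = 1 := pderiv_X_self _
  have h4 : ∀ a : Mon 3 D, pderiv 3 (∏ i, bg A x i ^ (a.1 i : ℕ)) = 0 := by
    intro a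
    refine Finset.prod_induction _ (fun q => pderiv 3 q = 0) ?_ ?_ ?_
    · intro q q' h h'
      rw [Derivation.leibniz, h, h', smul_zero, smul_zero, add_zero]
    · exact Derivation.map_one_eq_zero _
    · intro i _
      rw [Derivation.leibniz_pow, bg_der, smul_zero, smul_zero]
  have h5 : pderiv 3 (∑ a, C (γ a) * ∏ i, bg A x i ^ (a.1 i : ℕ)) = 0 := by
    rw [map_sum]
    apply Finset.sum_eq_zero
    intro a _
    rw [pderiv_C_mul, h4, mul_zero]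
  have h6 : pderiv 3 (bf x) = 0 := by
    unfold bf
    rw [map_add, map_add, map_add, pderiv_C_mul, pderiv_C_mul, pderiv_C_mul, h0, h1, h2, pderiv_C]
    simp
  unfold bq
  rw [map_sub, map_sub, pderiv_C_mul, h5, h6, h3, mul_zero, sub_zero, sub_zero]

/-- the gradient of the box polynomial is at least one -/
theorem bq_ga {D : ℕ} (A : Fin 3 → ℝ) (x : Fin 9 → ℝ) (θ : ℝ) (γ : Mon 3 D → ℝ) (r : ℝ) (p : Fin 4 → ℝ) :
    1 ≤ ga D (bq A x θ γ) r p := by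
  have h1 : 1 ≤ ph D (pderiv 3 (bq A x θ γ)) r p := by
    rw [bq_der]
    unfold ph
    have h2 := Finset.single_le_sum (f := fun j : Fin 4 → Fin (D + 1) => (eval (nodp D p r j)
      (1 : MvPolynomial (Fin 4) ℝ)) ^ 2) (fun _ _ => sq_nonneg _) (Finset.mem_univ (fun _ => 0))
    refine le_trans ?_ h2
    simp
  refine h1.trans ?_
  exact Finset.single_le_sum (f := fun i => ph D (pderiv i (bq A x θ γ)) r p) (fun _ _ => ph_nonneg _ _ _)
    (Finset.mem_univ 3)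

/-- change of the coefficients -/
theorem bqv_coef {D : ℕ} (A : Fin 3 → ℝ) (x : Fin 9 → ℝ) (θ : ℝ) (hθ : 0 ≤ θ) (γ γ' : Mon 3 D → ℝ) (p : Fin 4 → ℝ)
    {M ρ : ℝ} (hM : 1 ≤ M) (hg : ∀ i, |bgv A x p i| ≤ M) (hγ : ∀ a, |γ a - γ' a| ≤ ρ) :
    |bqv A x θ γ p - bqv A x θ γ' p| ≤ Fintype.card (Mon 3 D) * M ^ D * (θ * ρ) := by
  have e1 : bqv A x θ γ p - bqv A x θ γ' p = -(θ * ∑ a, (γ a - γ' a) * ∏ i, bgv A x p i ^ (a.1 i : ℕ)) := by
    have e2 : ∑ a, (γ a - γ' a) * ∏ i, bgv A x p i ^ (a.1 i : ℕ) =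
        ∑ a, γ a * ∏ i, bgv A x p i ^ (a.1 i : ℕ) - ∑ a, γ' a * ∏ i, bgv A x p i ^ (a.1 i : ℕ) := by
      rw [← Finset.sum_sub_distrib]
      apply Finset.sum_congr rfl
      intro a _
      ring
    rw [e2]
    unfold bqv
    ring
  rw [e1, abs_neg, abs_mul, abs_of_nonneg hθ]
  have h1 : |∑ a, (γ a - γ' a) * ∏ i, bgv A x p i ^ (a.1 i : ℕ)| ≤ Fintype.card (Mon 3 D) * (ρ * M ^ D) := by
    refine (Finset.abs_sum_le_sum_abs _ _).trans ?_
    have h2 : ∀ a ∈ (Finset.univ : Finset (Mon 3 D)), |(γ a - γ' a) * ∏ i, bgv A x p i ^ (a.1 i : ℕ)| ≤ ρ * M ^ D := by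
      intro a _
      rw [abs_mul]
      exact mul_le_mul (hγ a) (prod_le hM hg _ a.2) (abs_nonneg _) ((abs_nonneg _).trans (hγ a))
    refine (Finset.sum_le_card_nsmul _ _ _ h2).trans (le_of_eq ?_)
    rw [nsmul_eq_mul, Finset.card_univ]
  refine (mul_le_mul_of_nonneg_left h1 hθ).trans (le_of_eq ?_)
  ring

/-- the box polynomial on the cell of the point -/
theorem bqv_near {D : ℕ} (A : Fin 3 → ℝ) (hA : ∀ i, 0 ≤ A i) (x : Fin 9 → ℝ) (θ : ℝ) (hθ : 0 ≤ θ) (γ : Mon 3 D → ℝ)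
    (p p' : Fin 4 → ℝ) {M r : ℝ} (hM : 1 ≤ M) (hr : 0 ≤ r) (hp : ∀ i, |p' i - p i| ≤ r) (hAr : ∀ i, A i * r ≤ 1)
    (hθA : ∀ i, θ * A i ≤ 1) (hx : ∀ j, j ≠ 0 → j ≠ 1 → j ≠ 2 → j ≠ 5 → |x j| ≤ M) (hg : ∀ i, |bgv A x p i| ≤ M)
    (hγ : ∀ a, |γ a| ≤ M) :
    |bqv A x θ γ p' - bqv A x θ γ p| ≤ (4 * M + Fintype.card (Mon 3 D) * M * (D * (4 * M) ^ D * (3 * M))) * r := by
  have hM0 : 0 ≤ M := by linarith
  have x3 := hx 3 (by decide) (by decide) (by decide) (by decide)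
  have x4 := hx 4 (by decide) (by decide) (by decide) (by decide)
  have x6 := hx 6 (by decide) (by decide) (by decide) (by decide)
  have x7 := hx 7 (by decide) (by decide) (by decide) (by decide)
  have x8 := hx 8 (by decide) (by decide) (by decide) (by decide)
  have hmul : ∀ a b : ℝ, |a| ≤ M → |b| ≤ r → |a * b| ≤ M * r := by
    intro a b h1 h2
    rw [abs_mul]
    exact mul_le_mul h1 h2 (abs_nonneg _) hM0
  -- differences of the box coordinates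
  have hd : ∀ i, |bgv A x p' i - bgv A x p i| ≤ A i * (3 * M * r) := by
    intro i
    have h2 : ∀ b : ℝ, |b| ≤ 3 * M * r → |A i * b| ≤ A i * (3 * M * r) := by
      intro b hb
      rw [abs_mul, abs_of_nonneg (hA i)]
      exact mul_le_mul_of_nonneg_left hb (hA i)
    have hMr : r ≤ M * r := by nlinarith
    fin_cases i
    · have e : bgv A x p' 0 - bgv A x p 0 = A 0 * (p' 0 - p 0) := by
        show A 0 * (p' 0 - x 0) - A 0 * (p 0 - x 0) = _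
        ring
      show |bgv A x p' 0 - bgv A x p 0| ≤ A 0 * (3 * M * r)
      rw [e]
      apply h2
      have := hp 0
      nlinarith
    · have e : bgv A x p' 1 - bgv A x p 1 = A 1 * (p' 1 - p 1) := by
        show A 1 * (p' 1 - x 1) - A 1 * (p 1 - x 1) = _
        ring
      show |bgv A x p' 1 - bgv A x p 1| ≤ A 1 * (3 * M * r)
      rw [e]
      apply h2
      have := hp 1
      nlinarith
    · have e : bgv A x p' 2 - bgv A x p 2 = A 2 * ((p' 2 - p 2) - (x 3 * (p' 0 - p 0) + x 4 * (p' 1 - p 1))) := by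
        show A 2 * (p' 2 - (x 2 + x 3 * p' 0 + x 4 * p' 1)) - A 2 * (p 2 - (x 2 + x 3 * p 0 + x 4 * p 1)) = _
        ring
      show |bgv A x p' 2 - bgv A x p 2| ≤ A 2 * (3 * M * r)
      rw [e]
      apply h2
      have a1 := hmul _ _ x3 (hp 0)
      have a2 := hmul _ _ x4 (hp 1)
      have a3 := abs_add_le (x 3 * (p' 0 - p 0)) (x 4 * (p' 1 - p 1))
      have a4 := abs_sub (p' 2 - p 2) (x 3 * (p' 0 - p 0) + x 4 * (p' 1 - p 1))
      have a5 := hp 2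
      linarith
  have hg' : ∀ i, |bgv A x p' i| ≤ 4 * M := by
    intro i
    have h1 : A i * (3 * M * r) ≤ 3 * M := by
      have := hAr i
      calc A i * (3 * M * r) = 3 * M * (A i * r) := by ring
        _ ≤ 3 * M * 1 := mul_le_mul_of_nonneg_left this (by positivity)
        _ = 3 * M := mul_one _
    have h2 := hd i
    have h3 : |bgv A x p' i| ≤ |bgv A x p' i - bgv A x p i| + |bgv A x p i| := by
      have := abs_add_le (bgv A x p' i - bgv A x p i) (bgv A x p i)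
      rwa [sub_add_cancel] at this
    have h4 := hg i
    linarith
  have hgM : ∀ i, |bgv A x p i| ≤ 4 * M := fun i => (hg i).trans (by linarith)
  -- the sum
  set δ : ℝ := ∑ i, A i * (3 * M * r) with hδ
  have hδ0 : ∀ i, A i * (3 * M * r) ≤ δ := fun i => Finset.single_le_sum (f := fun i => A i * (3 * M * r))
    (fun j _ => mul_nonneg (hA j) (by positivity)) (Finset.mem_univ i)
  -- work with each coordinate separately through `max`
  obtain ⟨im, -, him⟩ := Finset.exists_max_image (Finset.univ : Finset (Fin 3)) A ⟨0, Finset.mem_univ _⟩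
  have hdm : ∀ i, |bgv A x p' i - bgv A x p i| ≤ A im * (3 * M * r) := fun i =>
    (hd i).trans (mul_le_mul_of_nonneg_right (him i (Finset.mem_univ i)) (by positivity))
  have hsum : |∑ a, γ a * ∏ i, bgv A x p' i ^ (a.1 i : ℕ) - ∑ a, γ a * ∏ i, bgv A x p i ^ (a.1 i : ℕ)| ≤
      Fintype.card (Mon 3 D) * (M * (D * (4 * M) ^ D * (A im * (3 * M * r)))) := by
    rw [← Finset.sum_sub_distrib]
    refine (Finset.abs_sum_le_sum_abs _ _).trans ?_
    have h2 : ∀ a ∈ (Finset.univ : Finset (Mon 3 D)), |γ a * ∏ i, bgv A x p' i ^ (a.1 i : ℕ) -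
        γ a * ∏ i, bgv A x p i ^ (a.1 i : ℕ)| ≤ M * (D * (4 * M) ^ D * (A im * (3 * M * r))) := by
      intro a _
      rw [← mul_sub, abs_mul]
      exact mul_le_mul (hγ a) (mono_diff (by linarith) hg' hgM hdm _ a.2) (abs_nonneg _) hM0
    refine (Finset.sum_le_card_nsmul _ _ _ h2).trans (le_of_eq ?_)
    rw [nsmul_eq_mul, Finset.card_univ]
  have e1 : bqv A x θ γ p' - bqv A x θ γ p = ((p' 3 - p 3) - (x 6 * (p' 0 - p 0) + x 7 * (p' 1 - p 1) +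
      x 8 * (p' 2 - p 2))) - θ * (∑ a, γ a * ∏ i, bgv A x p' i ^ (a.1 i : ℕ) -
      ∑ a, γ a * ∏ i, bgv A x p i ^ (a.1 i : ℕ)) := by
    unfold bqv
    ring
  rw [e1]
  have b1 : |(p' 3 - p 3) - (x 6 * (p' 0 - p 0) + x 7 * (p' 1 - p 1) + x 8 * (p' 2 - p 2))| ≤ 4 * M * r := by
    have a1 := hmul _ _ x6 (hp 0)
    have a2 := hmul _ _ x7 (hp 1)
    have a3 := hmul _ _ x8 (hp 2)
    have a4 := abs_sub (p' 3 - p 3) (x 6 * (p' 0 - p 0) + x 7 * (p' 1 - p 1) + x 8 * (p' 2 - p 2))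
    have a5 := abs_add_le (x 6 * (p' 0 - p 0) + x 7 * (p' 1 - p 1)) (x 8 * (p' 2 - p 2))
    have a6 := abs_add_le (x 6 * (p' 0 - p 0)) (x 7 * (p' 1 - p 1))
    have a7 := hp 3
    have hMr : r ≤ M * r := by nlinarith
    linarith
  have b2 : |θ * (∑ a, γ a * ∏ i, bgv A x p' i ^ (a.1 i : ℕ) - ∑ a, γ a * ∏ i, bgv A x p i ^ (a.1 i : ℕ))| ≤
      Fintype.card (Mon 3 D) * M * (D * (4 * M) ^ D * (3 * M)) * r := by
    rw [abs_mul, abs_of_nonneg hθ]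
    refine (mul_le_mul_of_nonneg_left hsum hθ).trans ?_
    have e2 : θ * (Fintype.card (Mon 3 D) * (M * (D * (4 * M) ^ D * (A im * (3 * M * r))))) =
        (θ * A im) * (Fintype.card (Mon 3 D) * M * (D * (4 * M) ^ D * (3 * M)) * r) := by ring
    rw [e2]
    calc (θ * A im) * (Fintype.card (Mon 3 D) * M * (D * (4 * M) ^ D * (3 * M)) * r)
        ≤ 1 * (Fintype.card (Mon 3 D) * M * (D * (4 * M) ^ D * (3 * M)) * r) :=
          mul_le_mul_of_nonneg_right (hθA im) (by positivity)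
      _ = _ := one_mul _
  refine (abs_sub _ _).trans ((add_le_add b1 b2).trans (le_of_eq ?_))
  ring

/-- SIZE OF THE BOX POLYNOMIAL ON THE CELL OF THE POINT -/
theorem bq_ph {D : ℕ} (A : Fin 3 → ℝ) (hA : ∀ i, 0 ≤ A i) (x : Fin 9 → ℝ) (θ : ℝ) (hθ : 0 ≤ θ) (γ γ' : Mon 3 D → ℝ)
    (p : Fin 4 → ℝ) {M r ε : ℝ} (hM : 1 ≤ M) (hr : 0 ≤ r) (hrε : r ≤ ε) (hAr : ∀ i, A i * r ≤ 1)
    (hθA : ∀ i, θ * A i ≤ 1) (hx : ∀ j, j ≠ 0 → j ≠ 1 → j ≠ 2 → j ≠ 5 → |x j| ≤ M) (hg : ∀ i, |bgv A x p i| ≤ M)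
    (hγ : ∀ a, |γ a| ≤ M) (hγ' : ∀ a, θ * |γ a - γ' a| ≤ ε) (hv : |bqv A x θ γ' p| ≤ ε) :
    ph D (bq A x θ γ) r p ≤ ((D : ℝ) + 1) ^ 4 * ((1 + Fintype.card (Mon 3 D) * M ^ D +
      (4 * M + Fintype.card (Mon 3 D) * M * (D * (4 * M) ^ D * (3 * M)))) * ε) ^ 2 := by
  have hε : 0 ≤ ε := hr.trans hrε
  have h0 : |bqv A x θ γ p| ≤ (1 + Fintype.card (Mon 3 D) * M ^ D) * ε := by
    have h1 : |bqv A x θ γ p - bqv A x θ γ' p| ≤ Fintype.card (Mon 3 D) * M ^ D * ε := by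
      rcases hθ.eq_or_lt with h | h
      · have e : bqv A x θ γ p - bqv A x θ γ' p = 0 := by
          rw [← h]
          unfold bqv
          ring
        rw [e, abs_zero]
        positivity
      · have h2 := bqv_coef A x θ hθ γ γ' p (ρ := ε / θ) hM hg (fun a => by
          rw [le_div_iff₀ h, mul_comm]
          exact hγ' a)
        rwa [mul_div_cancel₀ _ h.ne'] at h2
    have h3 : |bqv A x θ γ p| ≤ |bqv A x θ γ p - bqv A x θ γ' p| + |bqv A x θ γ' p| := by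
      have := abs_add_le (bqv A x θ γ p - bqv A x θ γ' p) (bqv A x θ γ' p)
      rwa [sub_add_cancel] at this
    linarith
  have h1 : ∀ j ∈ (Finset.univ : Finset (Fin 4 → Fin (D + 1))), (eval (nodp D p r j) (bq A x θ γ)) ^ 2 ≤
      ((1 + Fintype.card (Mon 3 D) * M ^ D +
      (4 * M + Fintype.card (Mon 3 D) * M * (D * (4 * M) ^ D * (3 * M)))) * ε) ^ 2 := by
    intro j _
    rw [← sq_abs, bq_eval]
    apply pow_le_pow_left₀ (abs_nonneg _)
    have h2 := bqv_near A hA x θ hθ γ p (nodp D p r j) hM hr (fun i => by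
      have e : nodp D p r j i - p i = r * nod D (j i) := by
        unfold nodp
        ring
      rw [e, abs_mul, abs_of_nonneg hr, abs_of_nonneg (nod_nonneg D _)]
      calc r * nod D (j i) ≤ r * 1 :=
            mul_le_mul_of_nonneg_left (nod_le D _ (Nat.le_of_lt_succ (j i).2)) hr
        _ = r := mul_one _) hAr hθA hx hg hγ
    have h3 : |bqv A x θ γ (nodp D p r j)| ≤ |bqv A x θ γ (nodp D p r j) - bqv A x θ γ p| + |bqv A x θ γ p| := by
      have := abs_add_le (bqv A x θ γ (nodp D p r j) - bqv A x θ γ p) (bqv A x θ γ p)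
      rwa [sub_add_cancel] at this
    have h4 : (4 * M + Fintype.card (Mon 3 D) * M * (D * (4 * M) ^ D * (3 * M))) * r ≤
        (4 * M + Fintype.card (Mon 3 D) * M * (D * (4 * M) ^ D * (3 * M))) * ε :=
      mul_le_mul_of_nonneg_left hrε (by positivity)
    linarith
  refine (Finset.sum_le_card_nsmul _ _ _ h1).trans (le_of_eq ?_)
  rw [nsmul_eq_mul, card_nodes]
  rfl

end

end Pool.Agent.Helper51.KL
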