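import Pool.Agent.Helper51.KL.Bq
import Pool.Agent.Helper88.NSK.Hfp

/-! THE LEVEL-1 KILL of case B: on an event of positive probability `z` is a polynomial of degree `D` in box coordinates
which are functions of a maximal label, with coefficients which are functions of the line (and the label) close to
functions of the point (and the label): then `H(c, σ)`, `σ` = the depth of this sheet. -/

set_option autoImplicit false

namespace Pool.Agent.Helper51.KL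

open Finset Filter Topology MvPolynomial Pool.Agent.Helper69.RK Pool.Agent.Helper31.EC Pool.Agent.Helper31.EC.Sp
open Pool.Agent.Helper40.EL Pool.Agent.Helper52.KP Pool.Agent.Helper89.LX Pool.Agent.Helper3.LF
open Pool.Agent.Helper42.NS Pool.Agent.Helper88.NSK Pool.Agent.Helper99.EC

noncomputable section

open Classical in
/-- coefficient vector of a polynomial of degree at most `D` -/
def cvec (D : ℕ) (q : MvPolynomial (Fin 4) ℝ) : Mon 4 D → ℝ :=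
  if h : q.totalDegree ≤ D then (exists_pol q h).choose else 0

theorem pol_cvec {D : ℕ} {q : MvPolynomial (Fin 4) ℝ} (h : q.totalDegree ≤ D) : pol (cvec D q) = q := by
  unfold cvec
  rw [dif_pos h]
  exact (exists_pol q h).choose_spec.symm

variable {S : Sp} {D : ℕ} {s : Sys S 3}

/-- the constant of the kill -/
def Ck (D : ℕ) : ℝ := ((D : ℝ) + 1) ^ 4 * ((5 + Fintype.card (Mon 3 D) + 3 * (Fintype.card (Mon 3 D) * (D * 4 ^ D))) *
  2 ^ (D + 2)) ^ 2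

theorem Ck_nonneg (D : ℕ) : 0 ≤ Ck D := by unfold Ck; positivity

/-- numerical part of the kill -/
theorem kill_num {α : Fin 3 → ℝ} {β σ κ n : ℝ} (hn : 0 < n) (hα : ∀ i, α i ≤ 1) (hαβ : ∀ i, α i ≤ β) (hβσ : β ≤ σ)
    (hσ : σ ≤ 1) (hκ : 0 ≤ κ) (x : Fin 9 → ℝ) (cB γ : Mon 3 D → ℝ) (p : Fin 4 → ℝ)
    (hx : ∀ j, j ≠ 0 → j ≠ 1 → j ≠ 2 → j ≠ 5 → |x j| ≤ 2 ^ (κ * n))
    (hg : ∀ i, |bgv (fun i => 2 ^ (α i * n)) x p i| ≤ 2 ^ (κ * n)) (hc : ∀ a, |cB a| ≤ 2 ^ (κ * n))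
    (hγ : ∀ a, |γ a - cB a| ≤ 2 ^ (-((σ - β) * n)))
    (hv : |bqv (fun i => 2 ^ (α i * n)) x (2 ^ (-(β * n))) cB p| ≤ 2 ^ (-(σ * n))) :
    2 ^ (2 * (σ - (D + 2) * κ) * n) *
      ph D (bq (fun i => 2 ^ (α i * n)) x (2 ^ (-(β * n))) γ) (2 ^ (-(1 * n))) p ≤ Ck D := by
  have h2 : (0 : ℝ) < 2 := by norm_num
  set M : ℝ := 2 * 2 ^ (κ * n) with hM
  have hM1 : (1 : ℝ) ≤ 2 ^ (κ * n) := Real.one_le_rpow (by norm_num) (by positivity)
  have hle : ∀ a b : ℝ, a ≤ b → (2 : ℝ) ^ a ≤ 2 ^ b := fun a b h => Real.rpow_le_rpow_of_exponent_le (by norm_num) h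
  have h1 := bq_ph (D := D) (fun i => 2 ^ (α i * n)) (fun i => by positivity) x (2 ^ (-(β * n))) (by positivity) γ cB p
    (M := M) (r := 2 ^ (-(1 * n))) (ε := 2 ^ (-(σ * n))) (by rw [hM]; linarith) (by positivity)
    (hle _ _ (by nlinarith)) (fun i => by
      rw [← Real.rpow_add h2, ← Real.rpow_zero 2]
      exact hle _ _ (by nlinarith [hα i])) (fun i => by
      rw [← Real.rpow_add h2, ← Real.rpow_zero 2]
      exact hle _ _ (by nlinarith [hαβ i])) (fun j a b c d => (hx j a b c d).trans (by rw [hM]; linarith))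
    (fun i => (hg i).trans (by rw [hM]; linarith)) (fun a => by
      have h3 : |γ a| ≤ |γ a - cB a| + |cB a| := by
        have := abs_add_le (γ a - cB a) (cB a)
        rwa [sub_add_cancel] at this
      have h4 : (2 : ℝ) ^ (-((σ - β) * n)) ≤ 1 := by
        rw [← Real.rpow_zero 2]
        exact hle _ _ (by nlinarith)
      have h5 := hγ a
      have h6 := hc a
      rw [hM]
      linarith) (fun a => by
      calc (2 : ℝ) ^ (-(β * n)) * |γ a - cB a| ≤ 2 ^ (-(β * n)) * 2 ^ (-((σ - β) * n)) :=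
            mul_le_mul_of_nonneg_left (hγ a) (by positivity)
        _ = 2 ^ (-(σ * n)) := by
            rw [← Real.rpow_add h2]
            congr 1
            ring) hv
  refine (mul_le_mul_of_nonneg_left h1 (by positivity)).trans ?_
  set N : ℝ := (Fintype.card (Mon 3 D) : ℝ) with hN
  have hN0 : 0 ≤ N := Nat.cast_nonneg _
  have hM1' : 1 ≤ M := by rw [hM]; linarith
  have hM0 : 0 ≤ M := by linarith
  have hD0 : (0 : ℝ) ≤ D := Nat.cast_nonneg D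
  have b1 : 1 + N * M ^ D + (4 * M + N * M * (D * (4 * M) ^ D * (3 * M))) ≤
      (5 + N + 3 * (N * (D * 4 ^ D))) * M ^ (D + 2) := by
    have c1 : (1 : ℝ) ≤ M ^ (D + 2) := one_le_pow₀ hM1'
    have c2 : M ^ D ≤ M ^ (D + 2) := pow_le_pow_right₀ hM1' (by omega)
    have c3 : M ≤ M ^ (D + 2) := by
      calc M = M ^ 1 := (pow_one M).symm
        _ ≤ M ^ (D + 2) := pow_le_pow_right₀ hM1' (by omega)
    have c4 : N * M * (D * (4 * M) ^ D * (3 * M)) = 3 * (N * (D * 4 ^ D)) * M ^ (D + 2) := by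
      rw [mul_pow, pow_add]
      ring
    rw [c4]
    have c5 : N * M ^ D ≤ N * M ^ (D + 2) := mul_le_mul_of_nonneg_left c2 hN0
    nlinarith
  have b2 : M ^ (D + 2) * 2 ^ (-(σ * n)) = 2 ^ (D + 2) * 2 ^ (-((σ - (D + 2) * κ) * n)) := by
    rw [hM, mul_pow, ← Real.rpow_natCast (2 ^ (κ * n)), ← Real.rpow_mul (by norm_num), mul_assoc,
      ← Real.rpow_add h2]
    congr 2
    push_cast
    ring
  have b3 : (1 + N * M ^ D + (4 * M + N * M * (D * (4 * M) ^ D * (3 * M)))) * 2 ^ (-(σ * n)) ≤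
      (5 + N + 3 * (N * (D * 4 ^ D))) * 2 ^ (D + 2) * 2 ^ (-((σ - (D + 2) * κ) * n)) := by
    refine (mul_le_mul_of_nonneg_right b1 (by positivity)).trans (le_of_eq ?_)
    rw [mul_assoc, b2]
    ring
  have b4 : 2 ^ (2 * (σ - (D + 2) * κ) * n) * ((2 : ℝ) ^ (-((σ - (D + 2) * κ) * n))) ^ 2 = 1 := by
    rw [← Real.rpow_natCast (2 ^ (-((σ - (D + 2) * κ) * n))), ← Real.rpow_mul (by norm_num), ← Real.rpow_add h2,
      ← Real.rpow_zero 2]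
    congr 1
    push_cast
    ring
  have b5 : ((1 + N * M ^ D + (4 * M + N * M * (D * (4 * M) ^ D * (3 * M)))) * 2 ^ (-(σ * n))) ^ 2 ≤
      ((5 + N + 3 * (N * (D * 4 ^ D))) * 2 ^ (D + 2) * 2 ^ (-((σ - (D + 2) * κ) * n))) ^ 2 :=
    pow_le_pow_left₀ (by positivity) b3 2
  calc 2 ^ (2 * (σ - (D + 2) * κ) * n) * (((D : ℝ) + 1) ^ 4 *
        ((1 + N * M ^ D + (4 * M + N * M * (D * (4 * M) ^ D * (3 * M)))) * 2 ^ (-(σ * n))) ^ 2)
      ≤ 2 ^ (2 * (σ - (D + 2) * κ) * n) * (((D : ℝ) + 1) ^ 4 *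
        ((5 + N + 3 * (N * (D * 4 ^ D))) * 2 ^ (D + 2) * 2 ^ (-((σ - (D + 2) * κ) * n))) ^ 2) := by
        apply mul_le_mul_of_nonneg_left _ (by positivity)
        exact mul_le_mul_of_nonneg_left b5 (by positivity)
    _ = Ck D * (2 ^ (2 * (σ - (D + 2) * κ) * n) * ((2 : ℝ) ^ (-((σ - (D + 2) * κ) * n))) ^ 2) := by
        unfold Ck
        rw [← hN]
        ring
    _ = Ck D := by rw [b4, mul_one]

/-- THE KILL, on an event -/
theorem kill_im {c : ℝ} {l : Lab S} (hl : IsKap s c l) (hD : 1 ≤ D) (G : ∀ k, (l.sp.F k).Ω → Prop)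
    (hG : 0 < ul (l.sp.pr G)) {α : Fin 3 → ℝ} {β σ κ : ℝ} (hα : ∀ i, α i ≤ 1) (hαβ : ∀ i, α i ≤ β) (hβσ : β ≤ σ)
    (hσ : σ ≤ 1) (hκ : 0 ≤ κ) (x : ∀ k, (l k).T.Ω → Fin 9 → ℝ)
    (hx : ∀ᶠ k in UF, ∀ ω ω', (l k).T.μ ω ≠ 0 → (l k).T.μ ω' ≠ 0 → (l k).V ω ω' → (l k).T.Z ω ω' → x k ω = x k ω')
    (cX cY : ∀ k, (l k).T.Ω → Mon 3 D → ℝ)
    (hcX : Nul S (fun k => h (fc (Setoid.ker (cX k)) : FL (l k).T) ((l k).v ⊔ (l k).p.map (cA s c k))))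
    (hcY : Nul S (fun k => h (fc (Setoid.ker (cY k)) : FL (l k).T) ((l k).v ⊔ (l k).p.map (cB s k))))
    (hest : ∀ᶠ k in UF, ∀ ω : (l k).T.Ω, (l k).T.μ ω ≠ 0 → G k ω →
      (∀ j, j ≠ 0 → j ≠ 1 → j ≠ 2 → j ≠ 5 → |x k ω j| ≤ 2 ^ (κ * (S.F k).n)) ∧
      (∀ i, |bgv (fun i => 2 ^ (α i * (S.F k).n)) (x k ω) (ptf s k ((l k).p.π ω)) i| ≤ 2 ^ (κ * (S.F k).n)) ∧
      (∀ a, |cY k ω a| ≤ 2 ^ (κ * (S.F k).n)) ∧
      (∀ a, |cX k ω a - cY k ω a| ≤ 2 ^ (-((σ - β) * (S.F k).n))) ∧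
      |bqv (fun i => 2 ^ (α i * (S.F k).n)) (x k ω) (2 ^ (-(β * (S.F k).n))) (cY k ω) (ptf s k ((l k).p.π ω))| ≤
        2 ^ (-(σ * (S.F k).n))) :
    ∃ (E : ∀ k, (l.sp.F k).Ω → Prop) (hE : 0 < ul (l.sp.pr E)), (∀ k ω, E k ω → G k ω) ∧
      Hf (s.im l.pj E hE) D c (σ - (D + 2) * κ) := by
  classical
  set E : ∀ k, (l.sp.F k).Ω → Prop := fun k ω => G k ω ∧
    ∀ a, |cX k ω a - cY k ω a| ≤ 2 ^ (-((σ - β) * (S.F k).n)) with hEd
  have hpr : ul (l.sp.pr E) = ul (l.sp.pr G) := by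
    apply ul_congr
    filter_upwards [hest] with k hk
    exact pb_congr fun ω hω => ⟨fun g => g.1, fun g => ⟨g, (hk ω hω g).2.2.2.1⟩⟩
  have hE : 0 < ul (l.sp.pr E) := by rw [hpr]; exact hG
  refine ⟨E, hE, fun k ω g => g.1, ?_⟩
  set ρ : ℕ → ℝ := fun k => 2 ^ (-((σ - β) * (S.F k).n)) with hρd
  have hρ : ∀ k, 0 < ρ k := fun k => by
    rw [hρd]
    positivity
  obtain ⟨_, hM⟩ := exact_label hl (cA_Bd s c) (fun E => cA_im_Bd s c l.pj E) cX cY ρ hρ hcX hcY E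
    (fun k ω g => g.2) hE
  set l' : Lab (Sp.im l.pj E) := (l.im E).addW fun k => Setoid.ker fun ω => rdv (ρ k) (cY k ω) with hl'
  have hdm : l'.DM (cA (s.im l.pj E hE) c) (cB (s.im l.pj E hE)) := by
    rw [cA_im, cB_im]
    exact hM.1
  -- the polynomial
  set good : ℕ → Prop := fun k => ∀ ω ω', (l k).T.μ ω ≠ 0 → (l k).T.μ ω' ≠ 0 → (l k).V ω ω' → (l k).T.Z ω ω' →
    x k ω = x k ω' with hgood
  set x' : ∀ k, (l k).T.Ω → Fin 9 → ℝ := fun k ω => if good k then x k ω else 0 with hx'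
  set γ : ∀ k, (l k).T.Ω → Mon 3 D → ℝ := fun k ω a => (rdv (ρ k) (cY k ω) a : ℝ) * ρ k with hγ
  set v : ∀ k, (l' k).T.Ω → Mon 4 D → ℝ := fun k ω =>
    cvec D (bq (fun i => 2 ^ (α i * (S.F k).n)) (x' k ω) (2 ^ (-(β * (S.F k).n))) (γ k ω)) with hv
  refine Hf_of_poly (s := s.im l.pj E hE) l' hdm v ?_ (fun _ => max 1 (Ck D)) ?_ ?_
  · intro k ω ω' a a' hV hZ
    obtain ⟨a1, _⟩ := (l k).T.rest_supp (E k) ω a
    obtain ⟨a1', _⟩ := (l k).T.rest_supp (E k) ω' a'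
    have hV1 : (l k).V ω ω' := hV.1
    have hV2 : rdv (ρ k) (cY k ω) = rdv (ρ k) (cY k ω') := hV.2
    have e1 : x' k ω = x' k ω' := by
      rw [hx']
      simp only
      by_cases hg : good k
      · rw [if_pos hg, if_pos hg]
        exact hg ω ω' a1 a1' hV1 hZ
      · rw [if_neg hg, if_neg hg]
    have e2 : γ k ω = γ k ω' := by
      rw [hγ]
      simp only
      rw [hV2]
    show cvec D (bq _ (x' k ω) _ (γ k ω)) = cvec D (bq _ (x' k ω') _ (γ k ω'))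
    rw [e1, e2]
  · exact (Sp.im l.pj E).Sub_const (by positivity)
  · have h1 : Tendsto (l.sp.pr E) UF (𝓝 (ul (l.sp.pr E))) := ul_tendsto (Sp.UB_pr E)
    refine typ_mono (S := l'.sp) (Typ_true (S := l'.sp)) ?_
    filter_upwards [h1.eventually (lt_mem_nhds hE), hest, hx] with k hk hk2 hk3 ω hω _
    obtain ⟨a, b⟩ := (l k).T.rest_supp (E k) ω hω
    have hEω : E k ω := b hk.ne'
    obtain ⟨g1, g2, g3, g4, g5⟩ := hk2 ω a hEω.1
    have hxx : x' k ω = x k ω := by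
      rw [hx']
      simp only
      rw [if_pos hk3]
    have hvv : v k ω = cvec D (bq (fun i => 2 ^ (α i * (S.F k).n)) (x k ω) (2 ^ (-(β * (S.F k).n))) (γ k ω)) := by
      rw [hv]
      simp only
      rw [hxx]
    have hpt : ptf (s.im l.pj E hE) k ((l' k).p.π ω) = ptf s k ((l k).p.π ω) := rfl
    have hdl : (Sp.im l.pj E).dl 1 k = 2 ^ (-(1 * (S.F k).n)) := rfl
    have hn : ((Sp.im l.pj E).F k).n = (S.F k).n := rfl
    have hγc : ∀ a, |γ k ω a - cY k ω a| ≤ 2 ^ (-((σ - β) * (S.F k).n)) := fun a => rdv_close (hρ k) (cY k ω) a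
    have key := kill_num (D := D) (S.F k).pos hα hαβ hβσ hσ hκ (x k ω) (cY k ω) (γ k ω)
      (ptf s k ((l k).p.π ω)) g1 g2 g3 hγc g5
    rw [hpt, hdl, hn, hvv, pol_cvec (bq_deg hD _ _ _ _)]
    refine ⟨key.trans (le_max_right _ _), ?_⟩
    have hga := bq_ga (D := D) (fun i => 2 ^ (α i * (S.F k).n)) (x k ω) (2 ^ (-(β * (S.F k).n))) (γ k ω)
      (2 ^ (-(1 * (S.F k).n))) (ptf s k ((l k).p.π ω))
    have h3 : (1 : ℝ) ≤ max 1 (Ck D) := le_max_left _ _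
    calc (1 : ℝ) = 1 * 1 := (one_mul 1).symm
      _ ≤ _ := mul_le_mul h3 hga zero_le_one (by linarith)

/-- THE KILL for robust systems -/
theorem kill (hR : RobH s) {c : ℝ} {l : Lab S} (hl : IsKap s c l) (hD : 1 ≤ D) (G : ∀ k, (l.sp.F k).Ω → Prop)
    (hG : 0 < ul (l.sp.pr G)) {α : Fin 3 → ℝ} {β σ κ : ℝ} (hα : ∀ i, α i ≤ 1) (hαβ : ∀ i, α i ≤ β) (hβσ : β ≤ σ)
    (hσ : σ ≤ 1) (hκ : 0 ≤ κ) (x : ∀ k, (l k).T.Ω → Fin 9 → ℝ)
    (hx : ∀ᶠ k in UF, ∀ ω ω', (l k).T.μ ω ≠ 0 → (l k).T.μ ω' ≠ 0 → (l k).V ω ω' → (l k).T.Z ω ω' → x k ω = x k ω')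
    (cX cY : ∀ k, (l k).T.Ω → Mon 3 D → ℝ)
    (hcX : Nul S (fun k => h (fc (Setoid.ker (cX k)) : FL (l k).T) ((l k).v ⊔ (l k).p.map (cA s c k))))
    (hcY : Nul S (fun k => h (fc (Setoid.ker (cY k)) : FL (l k).T) ((l k).v ⊔ (l k).p.map (cB s k))))
    (hest : ∀ᶠ k in UF, ∀ ω : (l k).T.Ω, (l k).T.μ ω ≠ 0 → G k ω →
      (∀ j, j ≠ 0 → j ≠ 1 → j ≠ 2 → j ≠ 5 → |x k ω j| ≤ 2 ^ (κ * (S.F k).n)) ∧
      (∀ i, |bgv (fun i => 2 ^ (α i * (S.F k).n)) (x k ω) (ptf s k ((l k).p.π ω)) i| ≤ 2 ^ (κ * (S.F k).n)) ∧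
      (∀ a, |cY k ω a| ≤ 2 ^ (κ * (S.F k).n)) ∧
      (∀ a, |cX k ω a - cY k ω a| ≤ 2 ^ (-((σ - β) * (S.F k).n))) ∧
      |bqv (fun i => 2 ^ (α i * (S.F k).n)) (x k ω) (2 ^ (-(β * (S.F k).n))) (cY k ω) (ptf s k ((l k).p.π ω))| ≤
        2 ^ (-(σ * (S.F k).n))) : Hf s D c (σ - (D + 2) * κ) := by
  obtain ⟨E, hE, _, h1⟩ := kill_im hl hD G hG hα hαβ hβσ hσ hκ x hx cX cY hcX hcY hest
  exact (hR.Hf_im l.pj E hE).mp h1

end

end Pool.Agent.Helper51.KL
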